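import Pool.Agent.Q240.PN.Stm

/-! Job NEAR of project PN (author helper240): near extremal sets. -/

set_option autoImplicit false

namespace Pool.Agent.Q298.PN.NEAR

open Finset Pool.Agent.Q240.PN

theorem one_le_hA (A : Finset ℕ) : 1 ≤ hA A := by
  classical
  induction A using Finset.induction_on with
  | empty => simp [hA]
  | insert a s ha ih =>
    rw [hA, Finset.prod_insert ha, ← hA]
    have h2 : (0 : ℝ) ≤ 1 / (a : ℝ) := by positivity
    nlinarith

theorem hA_split (B : Finset ℕ) (P : ℕ → Prop) [DecidablePred P] :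
    hA (B.filter P) * hA (B.filter (fun p => ¬ P p)) = hA B := by
  rw [hA, hA, hA]
  exact Finset.prod_filter_mul_prod_filter_not _ _ _

theorem RA_split (B : Finset ℕ) (P : ℕ → Prop) [DecidablePred P] :
    RA (B.filter P) * RA (B.filter (fun p => ¬ P p)) = RA B := by
  rw [RA, RA, RA]
  exact Finset.prod_filter_mul_prod_filter_not _ _ _

theorem one_add_sum_le (A : Finset ℕ) : 1 + ∑ p ∈ A, 1 / (p : ℝ) ≤ hA A := by
  classical
  induction A using Finset.induction_on with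
  | empty => simp [hA]
  | insert a s ha ih =>
    rw [hA, Finset.sum_insert ha, Finset.prod_insert ha, ← hA]
    have h1 := one_le_hA s
    have h2 : (0 : ℝ) ≤ 1 / (a : ℝ) := by positivity
    nlinarith

theorem one_sub_sum_le (A : Finset ℕ) (x : ℕ → ℝ) (hx : ∀ p ∈ A, 0 ≤ x p ∧ x p ≤ 1) :
    1 - ∑ p ∈ A, x p ≤ ∏ p ∈ A, (1 - x p) := by
  classical
  induction A using Finset.induction_on with
  | empty => simp
  | insert a s ha ih =>
    rw [Finset.sum_insert ha, Finset.prod_insert ha]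
    have h1 := ih fun p hp => hx p (Finset.mem_insert_of_mem hp)
    obtain ⟨h2, h3⟩ := hx a (Finset.mem_insert_self _ _)
    have h4 : 0 ≤ ∑ p ∈ s, x p :=
      Finset.sum_nonneg fun p hp => (hx p (Finset.mem_insert_of_mem hp)).1
    nlinarith

theorem OP_three (A : Finset ℕ) (h : OP A) (p : ℕ) (hp : p ∈ A) : 3 ≤ p := by
  obtain ⟨h1, h2⟩ := h p hp
  have := h1.two_le
  omega

theorem RA_mul (R : Finset ℕ) (h : OP R) : RA R * ∏ p ∈ R, (1 - 1 / (p : ℝ) ^ 2) = 1 := by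
  rw [RA, ← Finset.prod_mul_distrib]
  refine Finset.prod_eq_one fun p hp => ?_
  have h3 : (3 : ℝ) ≤ p := by exact_mod_cast OP_three R h p hp
  have h4 : (p : ℝ) ^ 2 - 1 ≠ 0 := by nlinarith
  have h5 : (p : ℝ) ≠ 0 := by positivity
  field_simp

theorem OP_filter (A : Finset ℕ) (h : OP A) (P : ℕ → Prop) [DecidablePred P] :
    OP (A.filter P) := fun p hp => h p (Finset.mem_filter.1 hp).1

theorem near (hBAS : S_BAS) (hST1 : S_ST1) (hMID : S_MID) : S_NEAR := by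
  obtain ⟨b1, b2, ⟨b3, -⟩, b4, -⟩ := hBAS
  have hW : 0 < W := by linarith
  refine ⟨2, by norm_num, fun c hc Y0 => ?_⟩
  obtain ⟨c', hc'0, hc'c, hc'1⟩ : ∃ c' : ℝ, 0 < c' ∧ c' ≤ c ∧ c' ≤ 1 :=
    ⟨min c 1, lt_min hc one_pos, min_le_left _ _, min_le_right _ _⟩
  obtain ⟨c2, Y00, hc2, hY00, hmid⟩ := hMID
  obtain ⟨t1, δ1, ht1, hδ1, hst1⟩ := hST1 (c2 / 2) (by positivity)
  -- Z
  obtain ⟨Z, hZ2, hZY0, hZY00, hZt, hZc⟩ : ∃ Z : ℝ, 2 ≤ Z ∧ Y0 ≤ Z ∧ Y00 ≤ Z ∧ (t1 : ℝ) + 1 ≤ Z ∧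
      5 / c' ≤ Z ^ ((1 : ℝ) / 5) := by
    refine ⟨max (max 2 Y0) (max (max Y00 (t1 + 1)) ((5 / c') ^ (5 : ℝ))),
      (le_max_left _ _).trans (le_max_left _ _), (le_max_right _ _).trans (le_max_left _ _),
      ((le_max_left _ _).trans (le_max_left _ _)).trans (le_max_right _ _),
      ((le_max_right _ _).trans (le_max_left _ _)).trans (le_max_right _ _), ?_⟩
    have h1 : (5 / c') ^ (5 : ℝ) ≤ max (max 2 Y0) (max (max Y00 (t1 + 1)) ((5 / c') ^ (5 : ℝ))) :=
      (le_max_right _ _).trans (le_max_right _ _)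
    have h2 := Real.rpow_le_rpow (by positivity) h1 (show (0 : ℝ) ≤ 1 / 5 by norm_num)
    rw [← Real.rpow_mul (by positivity)] at h2
    norm_num at h2 ⊢
    exact h2
  have hZ0 : 0 < Z := by linarith
  obtain ⟨t2, δ2, ht2, hδ2, hst2⟩ := hST1 (1 / Z) (by positivity)
  set t : ℕ := max t1 t2 with ht
  have htt1 : t1 ≤ t := le_max_left _ _
  have htt2 : t2 ≤ t := le_max_right _ _
  have ht0 : 1 ≤ t := ht1.trans htt1
  -- e
  obtain ⟨e, he0, he⟩ : ∃ e : ℝ, 0 < e ∧ ∀ k : Finset ℕ, (∀ p ∈ k, p ≤ t) → hA k < 2 →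
      e ≤ 2 / hA k - 1 := by
    classical
    set S : Finset (Finset ℕ) := ((range (t + 1)).powerset).filter (fun k => hA k < 2) with hS
    have hne : S.Nonempty := ⟨∅, by
      rw [hS, Finset.mem_filter]
      refine ⟨by simp, by simp [hA]⟩⟩
    obtain ⟨k0, hk0, hmin⟩ := Finset.exists_min_image S (fun k => 2 / hA k - 1) hne
    refine ⟨2 / hA k0 - 1, ?_, fun k hk hk2 => ?_⟩
    · rw [hS, Finset.mem_filter] at hk0
      have h1 := one_le_hA k0
      have : 1 < 2 / hA k0 := by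
        rw [lt_div_iff₀ (by linarith)]; linarith [hk0.2]
      linarith
    · refine hmin k ?_
      rw [hS, Finset.mem_filter, Finset.mem_powerset]
      refine ⟨fun p hp => Finset.mem_range.2 (by have := hk p hp; omega), hk2⟩
  obtain ⟨δ, hδ0, hδa, hδb, hδc, hδd⟩ : ∃ δ : ℝ, 0 < δ ∧ δ ≤ δ1 ∧ δ ≤ δ2 ∧ δ ≤ e ^ 3 ∧ δ ≤ 1 / 2 :=
    ⟨min (min δ1 δ2) (min (e ^ 3) (1 / 2)),
      lt_min (lt_min hδ1 hδ2) (lt_min (by positivity) (by norm_num)),
      (min_le_left _ _).trans (min_le_left _ _), (min_le_left _ _).trans (min_le_right _ _),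
      (min_le_right _ _).trans (min_le_left _ _), (min_le_right _ _).trans (min_le_right _ _)⟩
  obtain ⟨B, hB1, hB2, hB3⟩ := b4 δ hδ0
  set A : Finset ℕ := B.filter (fun p => p ≤ t) with hAdef
  set R : Finset ℕ := B.filter (fun p => ¬ p ≤ t) with hRdef
  have hAR : hA A * hA R = hA B := hA_split B (fun p => p ≤ t)
  have hRR : RA A * RA R = RA B := RA_split B (fun p => p ≤ t)
  have hOA : OP A := OP_filter B hB1 _
  have hOR : OP R := OP_filter B hB1 _
  have hA1 := one_le_hA A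
  have hR1 := one_le_hA R
  have hA2 : hA A < 2 := by nlinarith
  set ε : ℝ := 2 / hA A - 1 with hε
  have hεe : e ≤ ε := he A (fun p hp => (Finset.mem_filter.1 hp).2) hA2
  have hε0 : 0 < ε := by linarith
  have hεZ : ε ≤ 1 / Z := hst2 B hB1 hB2 (by nlinarith) t htt2
  have hδε : δ ≤ ε ^ 3 := hδc.trans (pow_le_pow_left₀ he0.le hεe 3)
  have hZinv : 1 / Z ≤ 1 / 2 := one_div_le_one_div_of_le (by norm_num) hZ2
  have hε1 : ε ≤ 1 / 2 := hεZ.trans hZinv
  set Y : ℝ := 1 / ε with hY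
  have hYε : 1 / Y = ε := by rw [hY]; field_simp
  have hYZ : Z ≤ Y := by
    rw [hY, le_div_iff₀ hε0]
    rw [le_div_iff₀ hZ0] at hεZ
    linarith
  have hY0 : 0 < Y := by linarith
  have hAε : hA A * (1 + ε) = 2 := by
    rw [hε]; field_simp; ring
  -- remaining primes
  have hRε : hA R < 1 + ε := by
    by_contra hcon
    push Not at hcon
    nlinarith
  have hsumR : ∑ p ∈ R, 1 / (p : ℝ) < ε := by
    have := one_add_sum_le R
    linarith
  have hRp : ∀ p ∈ R, 1 / (p : ℝ) ≤ ε := by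
    intro p hp
    have := Finset.single_le_sum (f := fun p : ℕ => 1 / (p : ℝ)) (fun _ _ => by positivity) hp
    linarith
  have hRt : ∀ p ∈ R, 1 / (p : ℝ) ≤ 1 / (t : ℝ) := by
    intro p hp
    have h1 := (Finset.mem_filter.1 hp).2
    push Not at h1
    have ht0' : (0 : ℝ) < t := by exact_mod_cast ht0
    exact one_div_le_one_div_of_le ht0' (by exact_mod_cast h1.le)
  have hRA : ∀ μ : ℝ, 0 ≤ μ → (∀ p ∈ R, 1 / (p : ℝ) ≤ μ) → RA B * (1 - μ * ε) ≤ RA A := by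
    intro μ hμ hμp
    have h1 := RA_mul R hOR
    have h2 := one_sub_sum_le R (fun p => 1 / (p : ℝ) ^ 2) (by
      intro p hp
      have h3 : (3 : ℝ) ≤ p := by exact_mod_cast OP_three R hOR p hp
      refine ⟨by positivity, ?_⟩
      rw [div_le_one (by positivity)]
      nlinarith)
    have h3 : ∑ p ∈ R, 1 / (p : ℝ) ^ 2 ≤ μ * ε := by
      calc ∑ p ∈ R, 1 / (p : ℝ) ^ 2 ≤ ∑ p ∈ R, μ * (1 / (p : ℝ)) := by
            refine Finset.sum_le_sum fun p hp => ?_
            have h4 := hμp p hp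
            have h5 : 1 / (p : ℝ) ^ 2 = (1 / (p : ℝ)) * (1 / (p : ℝ)) := by
              rw [div_mul_div_comm, one_mul, sq]
            rw [h5]
            exact mul_le_mul_of_nonneg_right h4 (by positivity)
        _ = μ * ∑ p ∈ R, 1 / (p : ℝ) := by rw [Finset.mul_sum]
        _ ≤ μ * ε := mul_le_mul_of_nonneg_left hsumR.le hμ
    have h4 : RA A = RA B * ∏ p ∈ R, (1 - 1 / (p : ℝ) ^ 2) := by
      rw [← hRR, mul_assoc, h1, mul_one]
    rw [h4]
    have hB0 : 0 ≤ RA B := by linarith [(b1 B hB1).1]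
    refine mul_le_mul_of_nonneg_left ?_ hB0
    linarith
  refine ⟨A, Y, hOA, hZY0.trans hYZ, by linarith, by rw [hYε]; exact hAε, ?_, ?_⟩
  · have h1 := hRA ε hε0.le hRp
    have h2 : (2 : ℝ) / Y ^ 2 = 2 * ε ^ 2 := by
      rw [← hYε]; field_simp
    rw [h2]
    have h3 : δ ≤ ε ^ 2 := by nlinarith [sq_nonneg ε]
    have h4 : W * (1 - 2 * ε ^ 2) ≤ W * (1 - δ) * (1 - ε * ε) := by
      rw [mul_assoc]
      refine mul_le_mul_of_nonneg_left ?_ hW.le
      nlinarith [mul_nonneg hδ0.le (mul_nonneg hε0.le hε0.le)]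
    have h5 : W * (1 - δ) * (1 - ε * ε) ≤ RA B * (1 - ε * ε) := by
      refine mul_le_mul_of_nonneg_right hB3.le ?_
      nlinarith
    linarith
  · suffices hts : (t : ℝ) ≤ c' * Y ^ 2 by
      intro p hp
      have h1 : (p : ℝ) ≤ t := by exact_mod_cast (Finset.mem_filter.1 hp).2
      have h2 : c' * Y ^ 2 ≤ c * Y ^ 2 := mul_le_mul_of_nonneg_right hc'c (by positivity)
      linarith
    by_contra hcon
    push Not at hcon
    have ht0' : (0 : ℝ) < t := by exact_mod_cast ht0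
    have htinv : 1 / (t : ℝ) ≤ ε ^ 2 / c' := by
      rw [div_le_div_iff₀ ht0' hc'0]
      have h1 : Y ^ 2 * ε ^ 2 = 1 := by rw [hY]; field_simp
      have h2 : c' * Y ^ 2 * ε ^ 2 ≤ t * ε ^ 2 := mul_le_mul_of_nonneg_right hcon.le (by positivity)
      nlinarith
    have hRAA : W * (1 - 2 * (ε ^ 3 / c')) ≤ RA A := by
      have h1 := hRA (ε ^ 2 / c') (by positivity) (fun p hp => (hRt p hp).trans htinv)
      have h2 : ε ^ 2 / c' * ε = ε ^ 3 / c' := by ring
      rw [h2] at h1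
      set v : ℝ := ε ^ 3 / c' with hv
      have hv0 : 0 < v := by positivity
      have h3 : ε ^ 3 ≤ v := by
        rw [hv, le_div_iff₀ hc'0]
        nlinarith [pow_pos hε0 3]
      by_cases h4 : v ≤ 1
      · have h5 : W * (1 - 2 * v) ≤ W * (1 - δ) * (1 - v) := by
          rw [mul_assoc]
          refine mul_le_mul_of_nonneg_left ?_ hW.le
          nlinarith [mul_nonneg hδ0.le hv0.le]
        have h6 : W * (1 - δ) * (1 - v) ≤ RA B * (1 - v) :=
          mul_le_mul_of_nonneg_right hB3.le (by linarith)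
        linarith
      · push Not at h4
        have h5 := (b1 A hOA).1
        nlinarith
    -- (i) a prime outside `A`
    obtain ⟨p, hpp, hpA, hpY, hpY2⟩ : ∃ p : ℕ, p.Prime ∧ p ∉ A ∧ Y < p ∧ (p : ℝ) ≤ Y ^ ((7 : ℝ) / 5) := by
      by_contra hno
      push Not at hno
      have h1 := hmid Y (hZY00.trans hYZ)
      set A2 : Finset ℕ := A.filter (fun p => ¬ p ≤ ⌊Y⌋₊) with hA2def
      have h2 : ∑ p ∈ (Ioc ⌊Y⌋₊ ⌊Y ^ ((7 : ℝ) / 5)⌋₊).filter Nat.Prime, 1 / (p : ℝ) ≤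
          ∑ p ∈ A2, 1 / (p : ℝ) := by
        refine Finset.sum_le_sum_of_subset_of_nonneg ?_ fun _ _ _ => by positivity
        intro p hp
        rw [Finset.mem_filter, Finset.mem_Ioc] at hp
        obtain ⟨⟨h3, h4⟩, h5⟩ := hp
        rw [hA2def, Finset.mem_filter]
        refine ⟨?_, by omega⟩
        by_contra h6
        have h7 : Y < (p : ℝ) := (Nat.floor_lt hY0.le).1 h3
        have h8 : (p : ℝ) ≤ Y ^ ((7 : ℝ) / 5) := (Nat.le_floor_iff' h5.ne_zero).1 h4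
        have h9 := hno p h5 h6 h7
        linarith
      have h3 := one_add_sum_le A2
      have h4 : hA (A.filter (fun p => p ≤ ⌊Y⌋₊)) * hA A2 = hA A := hA_split A _
      set s : ℕ := min t ⌊Y⌋₊ with hs
      have h5 : A.filter (fun p => p ≤ ⌊Y⌋₊) = B.filter (fun p => p ≤ s) := by
        ext p
        simp only [hAdef, Finset.mem_filter, hs, le_min_iff]
        tauto
      have h6 : t1 ≤ s := by
        rw [hs, le_min_iff]
        refine ⟨htt1, Nat.le_floor ?_⟩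
        linarith
      have h7 := hst1 B hB1 hB2 (by nlinarith) s h6
      rw [← h5] at h7
      set a1 : ℝ := hA (A.filter (fun p => p ≤ ⌊Y⌋₊)) with ha1
      have h8 : 1 ≤ a1 := one_le_hA _
      have h9 : 2 ≤ (1 + c2 / 2) * a1 := by
        have : 2 / a1 ≤ 1 + c2 / 2 := by linarith
        rwa [div_le_iff₀ (by linarith)] at this
      nlinarith
    -- (ii)
    have hp2 : 2 < p := by
      have h1 : (2 : ℝ) < p := by linarith
      exact_mod_cast h1
    have hpr : (0 : ℝ) < p := by linarith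
    have hOi : OP (insert p A) := by
      intro x hx
      rcases Finset.mem_insert.1 hx with rfl | h
      · exact ⟨hpp, by omega⟩
      · exact hOA x h
    have hhi : hA (insert p A) < 2 := by
      rw [hA, Finset.prod_insert hpA, ← hA]
      have h1 : 1 / (p : ℝ) < ε := by
        rw [← hYε]
        exact one_div_lt_one_div_of_lt hY0 hpY
      nlinarith
    have hRi := b2 _ hOi hhi
    have hRi2 : RA (insert p A) = (p : ℝ) ^ 2 / ((p : ℝ) ^ 2 - 1) * RA A := by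
      rw [RA, Finset.prod_insert hpA, ← RA]
    rw [hRi2] at hRi
    have hp1 : 0 < (p : ℝ) ^ 2 - 1 := by nlinarith
    have hpf : 1 + 1 / (p : ℝ) ^ 2 ≤ (p : ℝ) ^ 2 / ((p : ℝ) ^ 2 - 1) := by
      rw [le_div_iff₀ hp1]
      have : (1 + 1 / (p : ℝ) ^ 2) * ((p : ℝ) ^ 2 - 1) = (p : ℝ) ^ 2 - 1 / (p : ℝ) ^ 2 := by
        field_simp; ring
      rw [this]
      have : 0 < 1 / (p : ℝ) ^ 2 := by positivity
      linarith
    have hRA0 : 0 < RA A := by linarith [(b1 A hOA).1]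
    set v : ℝ := 2 * (ε ^ 3 / c') with hv
    have hkey : (1 + 1 / (p : ℝ) ^ 2) * (1 - v) ≤ 1 := by
      have h1 : (1 + 1 / (p : ℝ) ^ 2) * (W * (1 - v)) ≤ W := by
        calc (1 + 1 / (p : ℝ) ^ 2) * (W * (1 - v)) ≤ (1 + 1 / (p : ℝ) ^ 2) * RA A :=
              mul_le_mul_of_nonneg_left hRAA (by positivity)
          _ ≤ (p : ℝ) ^ 2 / ((p : ℝ) ^ 2 - 1) * RA A := mul_le_mul_of_nonneg_right hpf hRA0.le
          _ ≤ W := hRi
      have h2 : W * ((1 + 1 / (p : ℝ) ^ 2) * (1 - v)) ≤ W * 1 := by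
        rw [mul_one]
        calc W * ((1 + 1 / (p : ℝ) ^ 2) * (1 - v)) = (1 + 1 / (p : ℝ) ^ 2) * (W * (1 - v)) := by ring
          _ ≤ W := h1
      exact le_of_mul_le_mul_left h2 hW
    have hv0 : 0 < v := by positivity
    have hpinv : 1 / (p : ℝ) ^ 2 ≤ 2 * v := by
      have h1 : 1 / (p : ℝ) ^ 2 ≤ 1 := by
        rw [div_le_one (by positivity)]
        have : (2 : ℝ) < p := by exact_mod_cast hp2
        nlinarith
      nlinarith
    have hp2low : 1 ≤ 2 * v * (p : ℝ) ^ 2 := by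
      rw [div_le_iff₀ (by positivity)] at hpinv
      exact hpinv
    have hvY : v * Y ^ 3 = 2 / c' := by
      rw [hv, hY]
      field_simp
    -- p² ≤ Y^(14/5)
    have hYp : (p : ℝ) ^ 2 * Y ^ ((1 : ℝ) / 5) ≤ Y ^ 3 := by
      have h1 : (p : ℝ) ^ 2 ≤ (Y ^ ((7 : ℝ) / 5)) ^ 2 := pow_le_pow_left₀ hpr.le hpY2 2
      have h2 : (Y ^ ((7 : ℝ) / 5)) ^ 2 * Y ^ ((1 : ℝ) / 5) = Y ^ 3 := by
        rw [← Real.rpow_natCast, ← Real.rpow_mul hY0.le, ← Real.rpow_add hY0, ← Real.rpow_natCast]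
        norm_num
      calc (p : ℝ) ^ 2 * Y ^ ((1 : ℝ) / 5) ≤ (Y ^ ((7 : ℝ) / 5)) ^ 2 * Y ^ ((1 : ℝ) / 5) :=
            mul_le_mul_of_nonneg_right h1 (Real.rpow_nonneg hY0.le _)
        _ = Y ^ 3 := h2
    have hY5 : 5 / c' ≤ Y ^ ((1 : ℝ) / 5) :=
      hZc.trans (Real.rpow_le_rpow hZ0.le hYZ (by norm_num))
    have h1 : Y ^ ((1 : ℝ) / 5) ≤ 2 * v * Y ^ 3 := by
      calc Y ^ ((1 : ℝ) / 5) = 1 * Y ^ ((1 : ℝ) / 5) := (one_mul _).symm
        _ ≤ (2 * v * (p : ℝ) ^ 2) * Y ^ ((1 : ℝ) / 5) :=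
          mul_le_mul_of_nonneg_right hp2low (Real.rpow_nonneg hY0.le _)
        _ = 2 * v * ((p : ℝ) ^ 2 * Y ^ ((1 : ℝ) / 5)) := by ring
        _ ≤ 2 * v * Y ^ 3 := mul_le_mul_of_nonneg_left hYp (by positivity)
    have h2 : 2 * v * Y ^ 3 = 4 / c' := by
      calc 2 * v * Y ^ 3 = 2 * (v * Y ^ 3) := by ring
        _ = 4 / c' := by rw [hvY]; ring
    have h3 : (4 : ℝ) / c' < 5 / c' := div_lt_div_of_pos_right (by norm_num) hc'0
    linarith

end Pool.Agent.Q298.PN.NEAR
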