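import Pool.Agent.Q240.PN.Stm

/-! Job SM of project PN (author helper240): few odd smooth numbers (Rankin). -/

set_option autoImplicit false

namespace Pool.Agent.Q298.PN.SM

open Finset Filter Pool.Agent.Q240.PN

/-- `n ↦ n^(-s)` as a monoid homomorphism -/
noncomputable def fh (s : ℝ) : ℕ →* ℝ where
  toFun n := (n : ℝ) ^ (-s)
  map_one' := by simp
  map_mul' m n := by
    push_cast
    exact Real.mul_rpow (Nat.cast_nonneg _) (Nat.cast_nonneg _)

theorem fh_apply (s : ℝ) (n : ℕ) : fh s n = (n : ℝ) ^ (-s) := rfl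

theorem euler (s : ℝ) (hs : 0 < s) (P T : Finset ℕ)
    (hT : ∀ k ∈ T, ∀ p : ℕ, p.Prime → p ∣ k → p ∈ P) :
    ∑ k ∈ T, (k : ℝ) ^ (-s) ≤ ∏ p ∈ P with p.Prime, (1 - (p : ℝ) ^ (-s))⁻¹ := by
  have h1 : ∀ {p : ℕ}, p.Prime → ‖fh s p‖ < 1 := by
    intro p hp
    rw [fh_apply, Real.norm_of_nonneg (Real.rpow_nonneg (Nat.cast_nonneg _) _)]
    exact Real.rpow_lt_one_of_one_lt_of_neg (by exact_mod_cast hp.one_lt) (by linarith)
  obtain ⟨-, h2⟩ := EulerProduct.summable_and_hasSum_factoredNumbers_prod_filter_prime_geometric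
    (f := fh s) h1 P
  have hTm : ∀ k ∈ T, k ∈ Nat.factoredNumbers P := fun k hk =>
    Nat.mem_factoredNumbers'.2 (hT k hk)
  have h3 : ∑ k ∈ T, (k : ℝ) ^ (-s) = ∑ k ∈ T.subtype (· ∈ Nat.factoredNumbers P), fh s k := by
    rw [Finset.sum_subtype_of_mem (fun k => fh s k) hTm]
    rfl
  rw [h3]
  refine (sum_le_hasSum _ ?_ h2).trans (le_of_eq rfl)
  intro i _
  rw [fh_apply]
  exact Real.rpow_nonneg (Nat.cast_nonneg _) _

theorem inv_le (u : ℝ) (h0 : 0 ≤ u) (h1 : u ≤ 7 / 10) : (1 - u)⁻¹ ≤ Real.exp (4 * u) := by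
  have h2 : (0 : ℝ) < 1 - u := by linarith
  have h3 : (1 - u)⁻¹ = 1 + u / (1 - u) := by field_simp; ring
  rw [h3]
  have h4 : u / (1 - u) ≤ 4 * u := by
    rw [div_le_iff₀ h2]
    nlinarith
  have := Real.add_one_le_exp (4 * u)
  linarith

/-- `∑_{p ≤ z} p^(-1/2)` is small against `√z` -/
theorem sumhalf (η : ℝ) (hη : 0 < η) : ∃ z0 : ℝ, 1 ≤ z0 ∧ ∀ z : ℝ, z0 ≤ z →
    ∑ p ∈ (Icc 1 ⌊z⌋₊).filter Nat.Prime, 1 / Real.sqrt (p : ℝ) ≤ η * Real.sqrt z := by
  obtain ⟨θ, hθ0, hθ1⟩ : ∃ θ : ℝ, 0 < θ ∧ 3 * θ ≤ η := ⟨η / 3, by positivity, by linarith⟩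
  -- π(z) ≤ θ² z for z large
  have hpi : ∀ᶠ z : ℝ in atTop, (Nat.primeCounting ⌊z⌋₊ : ℝ) ≤ θ ^ 2 * z := by
    have h1 := Chebyshev.eventually_primeCounting_le (ε := 1) one_pos
    have h2 : ∀ᶠ z : ℝ in atTop, (Real.log 4 + 1) / θ ^ 2 ≤ Real.log z :=
      Real.tendsto_log_atTop.eventually (eventually_ge_atTop _)
    filter_upwards [h1, h2, eventually_gt_atTop (1 : ℝ)] with z hz1 hz2 hz3
    refine hz1.trans ?_
    have hl : 0 < Real.log z := Real.log_pos hz3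
    rw [div_le_iff₀ hl]
    rw [div_le_iff₀ (by positivity)] at hz2
    nlinarith
  obtain ⟨z0, hz0⟩ := eventually_atTop.1 hpi
  refine ⟨max z0 1, le_max_right _ _, fun z hz => ?_⟩
  have hz1 : 1 ≤ z := (le_max_right _ _).trans hz
  have hzz : z0 ≤ z := (le_max_left _ _).trans hz
  have hpz := hz0 z hzz
  -- split at θ² z
  have hsz : 0 < Real.sqrt z := Real.sqrt_pos.2 (by linarith)
  rw [← Finset.sum_filter_add_sum_filter_not ((Icc 1 ⌊z⌋₊).filter Nat.Prime)
    (fun p : ℕ => (p : ℝ) ≤ θ ^ 2 * z)]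
  have hA : ∀ m : ℕ, ∑ p ∈ Icc 1 m, 1 / Real.sqrt (p : ℝ) ≤ 2 * Real.sqrt m := by
    intro m
    induction m with
    | zero => simp
    | succ k ih =>
      rw [Finset.sum_Icc_succ_top (by omega)]
      have e1 : (0 : ℝ) ≤ k := Nat.cast_nonneg _
      have hk : Real.sqrt (k : ℝ) ^ 2 = k := Real.sq_sqrt e1
      have hk1 : Real.sqrt ((k + 1 : ℕ) : ℝ) ^ 2 = k + 1 := by
        rw [Real.sq_sqrt (Nat.cast_nonneg _)]; push_cast; ring
      have hp : 0 < Real.sqrt ((k + 1 : ℕ) : ℝ) := Real.sqrt_pos.2 (by positivity)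
      have h0 : 0 ≤ Real.sqrt (k : ℝ) := Real.sqrt_nonneg _
      have : 1 / Real.sqrt ((k + 1 : ℕ) : ℝ) ≤ 2 * Real.sqrt ((k + 1 : ℕ) : ℝ) - 2 * Real.sqrt k := by
        rw [div_le_iff₀ hp]
        nlinarith [sq_nonneg (Real.sqrt ((k + 1 : ℕ) : ℝ) - Real.sqrt k)]
      linarith
  have hs1 : ∑ p ∈ ((Icc 1 ⌊z⌋₊).filter Nat.Prime).filter (fun p : ℕ => (p : ℝ) ≤ θ ^ 2 * z),
      1 / Real.sqrt (p : ℝ) ≤ 2 * (θ * Real.sqrt z) := by
    have hsub : ((Icc 1 ⌊z⌋₊).filter Nat.Prime).filter (fun p : ℕ => (p : ℝ) ≤ θ ^ 2 * z)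
        ⊆ Icc 1 ⌊θ ^ 2 * z⌋₊ := by
      intro p hp
      simp only [Finset.mem_filter, Finset.mem_Icc] at hp ⊢
      exact ⟨hp.1.1.1, Nat.le_floor hp.2⟩
    refine (Finset.sum_le_sum_of_subset_of_nonneg hsub fun _ _ _ => by positivity).trans ?_
    refine (hA _).trans ?_
    have : Real.sqrt (⌊θ ^ 2 * z⌋₊ : ℝ) ≤ θ * Real.sqrt z := by
      refine (Real.sqrt_le_sqrt (Nat.floor_le (by positivity))).trans (le_of_eq ?_)
      rw [Real.sqrt_mul (by positivity), Real.sqrt_sq hθ0.le]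
    linarith
  have hs2 : ∑ p ∈ ((Icc 1 ⌊z⌋₊).filter Nat.Prime).filter (fun p : ℕ => ¬ (p : ℝ) ≤ θ ^ 2 * z),
      1 / Real.sqrt (p : ℝ) ≤ θ * Real.sqrt z := by
    have hb : ∀ p ∈ ((Icc 1 ⌊z⌋₊).filter Nat.Prime).filter (fun p : ℕ => ¬ (p : ℝ) ≤ θ ^ 2 * z),
        1 / Real.sqrt (p : ℝ) ≤ 1 / (θ * Real.sqrt z) := by
      intro p hp
      simp only [Finset.mem_filter, not_le] at hp
      refine one_div_le_one_div_of_le (by positivity) ?_
      rw [← Real.sqrt_sq hθ0.le, ← Real.sqrt_mul (by positivity)]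
      exact Real.sqrt_le_sqrt hp.2.le
    refine (Finset.sum_le_card_nsmul _ _ _ hb).trans ?_
    rw [nsmul_eq_mul]
    have hc : ((((Icc 1 ⌊z⌋₊).filter Nat.Prime).filter (fun p : ℕ => ¬ (p : ℝ) ≤ θ ^ 2 * z)).card : ℝ)
        ≤ θ ^ 2 * z := by
      refine le_trans ?_ hpz
      have : (((Icc 1 ⌊z⌋₊).filter Nat.Prime).filter (fun p : ℕ => ¬ (p : ℝ) ≤ θ ^ 2 * z)).card
          ≤ Nat.primeCounting ⌊z⌋₊ := by
        rw [Nat.primeCounting, Nat.primeCounting', Nat.count_eq_card_filter_range]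
        refine Finset.card_le_card ?_
        intro p hp
        simp only [Finset.mem_filter, Finset.mem_Icc, Finset.mem_range] at hp ⊢
        exact ⟨by omega, hp.1.2⟩
      exact_mod_cast this
    refine (mul_le_mul_of_nonneg_right hc (by positivity)).trans (le_of_eq ?_)
    have : z = Real.sqrt z * Real.sqrt z := (Real.mul_self_sqrt (by linarith)).symm
    field_simp
    rw [Real.sq_sqrt (by linarith)]
  nlinarith

theorem sm : S_SM := by
  intro K0 b hK0 hb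
  set e3 : ℝ := Real.exp 3 with he3
  have he3p : 0 < e3 := Real.exp_pos _
  obtain ⟨z0, hz01, hz0⟩ := sumhalf (b / (8 * e3 * Real.sqrt K0)) (by
    have := Real.sqrt_pos.2 hK0
    positivity)
  have hev : ∀ᶠ Y : ℝ in atTop, z0 ≤ K0 * Y ^ 2 ∧ Real.log K0 ≤ Real.log Y ∧ 6 ≤ Real.log Y ∧ 2 ≤ Y := by
    have h1 : Tendsto (fun Y : ℝ => K0 * Y ^ 2) atTop atTop :=
      (tendsto_pow_atTop (two_ne_zero)).const_mul_atTop hK0
    filter_upwards [h1.eventually (eventually_ge_atTop z0),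
      Real.tendsto_log_atTop.eventually (eventually_ge_atTop (Real.log K0)),
      Real.tendsto_log_atTop.eventually (eventually_ge_atTop 6), eventually_ge_atTop (2 : ℝ)]
      with Y a1 a2 a3 a4
    exact ⟨a1, a2, a3, a4⟩
  obtain ⟨Y1, hY1⟩ := eventually_atTop.1 hev
  refine ⟨max Y1 2, le_max_right _ _, fun Y hY N hN T hT => ?_⟩
  obtain ⟨hz, hlK, hl6, hY2⟩ := hY1 Y ((le_max_left _ _).trans hY)
  have hY0 : 0 < Y := by linarith
  have hL : 0 < Real.log Y := by linarith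
  set z : ℝ := K0 * Y ^ 2 with hzdef
  set s : ℝ := 1 / 2 - 1 / Real.log Y with hs
  have hs3 : 1 / 3 ≤ s := by
    have : 1 / Real.log Y ≤ 1 / 6 := one_div_le_one_div_of_le (by norm_num) hl6
    rw [hs]; linarith
  have hs0 : 0 < s := by linarith
  have hN1 : 0 < Real.log N := by
    have : 0 < b * Y * Real.log Y := by positivity
    linarith
  have hNpos : 0 < N := by
    rcases Nat.eq_zero_or_pos N with h | h
    · rw [h] at hN1; simp at hN1
    · exact h
  have hNr : (0 : ℝ) < N := by exact_mod_cast hNpos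
  -- the primes
  set P : Finset ℕ := (Icc 3 ⌊z⌋₊) with hP
  have hTP : ∀ k ∈ T, ∀ p : ℕ, p.Prime → p ∣ k → p ∈ P := by
    intro k hk p hp hpk
    obtain ⟨-, -, hodd, hsm⟩ := hT k hk
    rw [hP, Finset.mem_Icc]
    refine ⟨?_, Nat.le_floor (hsm p hp hpk)⟩
    have h2 : p ≠ 2 := by
      rintro rfl
      rcases hodd with ⟨m, hm⟩
      omega
    have := hp.two_le
    omega
  have hE := euler s hs0 P T hTP
  -- card ≤ N^s * sum
  have hcard : (T.card : ℝ) ≤ (N : ℝ) ^ s * ∑ k ∈ T, (k : ℝ) ^ (-s) := by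
    rw [Finset.mul_sum, Finset.card_eq_sum_ones, Nat.cast_sum]
    refine Finset.sum_le_sum fun k hk => ?_
    obtain ⟨hk1, hkN, -, -⟩ := hT k hk
    have hkr : (0 : ℝ) < k := by exact_mod_cast hk1
    rw [Real.rpow_neg hkr.le, ← div_eq_mul_inv, le_div_iff₀ (Real.rpow_pos_of_pos hkr _)]
    simp only [Nat.cast_one, one_mul]
    exact Real.rpow_le_rpow hkr.le (by exact_mod_cast hkN) hs0.le
  -- N^s bound
  have hNs : (N : ℝ) ^ s ≤ Real.sqrt N * Real.exp (-(b * Y)) := by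
    rw [Real.sqrt_eq_rpow, Real.rpow_def_of_pos hNr, Real.rpow_def_of_pos hNr, ← Real.exp_add]
    refine Real.exp_le_exp.2 ?_
    have : b * Y ≤ Real.log N / Real.log Y := by
      rw [le_div_iff₀ hL]; linarith
    have h2 : Real.log N * s = Real.log N * (1 / 2) - Real.log N / Real.log Y := by
      rw [hs]; field_simp
    rw [h2]; linarith
  -- product bound
  have hu : ∀ p ∈ P.filter Nat.Prime, (1 - (p : ℝ) ^ (-s))⁻¹ ≤
      Real.exp (4 * (e3 * (1 / Real.sqrt (p : ℝ)))) := by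
    intro p hp
    rw [Finset.mem_filter, hP, Finset.mem_Icc] at hp
    obtain ⟨⟨hp3, hpz⟩, hpp⟩ := hp
    have hp3r : (3 : ℝ) ≤ p := by exact_mod_cast hp3
    have hpr : (0 : ℝ) < p := by linarith
    have hpz' : (p : ℝ) ≤ z := (Nat.le_floor_iff' (by omega)).1 hpz
    have hu0 : 0 ≤ (p : ℝ) ^ (-s) := Real.rpow_nonneg hpr.le _
    have hu1 : (p : ℝ) ^ (-s) ≤ 7 / 10 := by
      have h1 : (p : ℝ) ^ (-s) ≤ (3 : ℝ) ^ (-s) :=
        Real.rpow_le_rpow_of_nonpos (by norm_num) hp3r (by linarith)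
      have h2 : (3 : ℝ) ^ (-s) ≤ (3 : ℝ) ^ (-(1 / 3 : ℝ)) :=
        Real.rpow_le_rpow_of_exponent_le (by norm_num) (by linarith)
      have h3 : (3 : ℝ) ^ (-(1 / 3 : ℝ)) ≤ 7 / 10 := by
        have h4 : ((3 : ℝ) ^ (-(1 / 3 : ℝ))) ^ 3 = 1 / 3 := by
          rw [← Real.rpow_natCast, ← Real.rpow_mul (by norm_num)]
          norm_num [Real.rpow_neg]
        by_contra hcon
        push Not at hcon
        have : (7 / 10 : ℝ) ^ 3 < ((3 : ℝ) ^ (-(1 / 3 : ℝ))) ^ 3 :=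
          pow_lt_pow_left₀ hcon (by norm_num) (by norm_num)
        rw [h4] at this
        norm_num at this
      linarith
    refine (inv_le _ hu0 hu1).trans ?_
    refine Real.exp_le_exp.2 ?_
    have hmain : (p : ℝ) ^ (-s) ≤ e3 * (1 / Real.sqrt (p : ℝ)) := by
      have h1 : (p : ℝ) ^ (-s) = Real.exp (Real.log p / Real.log Y) * (1 / Real.sqrt (p : ℝ)) := by
        rw [Real.sqrt_eq_rpow, one_div, ← Real.rpow_neg hpr.le, Real.rpow_def_of_pos hpr,
          Real.rpow_def_of_pos hpr, ← Real.exp_add]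
        congr 1
        rw [hs]; field_simp; ring
      rw [h1]
      refine mul_le_mul_of_nonneg_right ?_ (by positivity)
      rw [he3]
      refine Real.exp_le_exp.2 ?_
      rw [div_le_iff₀ hL]
      have h2 : Real.log p ≤ Real.log z := Real.log_le_log hpr hpz'
      have h3 : Real.log z = Real.log K0 + 2 * Real.log Y := by
        rw [hzdef, Real.log_mul hK0.ne' (by positivity), Real.log_pow]; push_cast; ring
      linarith
    linarith
  have hprod : ∏ p ∈ P with p.Prime, (1 - (p : ℝ) ^ (-s))⁻¹ ≤ Real.exp (b * Y / 2) := by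
    calc ∏ p ∈ P with p.Prime, (1 - (p : ℝ) ^ (-s))⁻¹
        ≤ ∏ p ∈ P with p.Prime, Real.exp (4 * (e3 * (1 / Real.sqrt (p : ℝ)))) := by
          refine Finset.prod_le_prod ?_ hu
          intro p hp
          rw [Finset.mem_filter, hP, Finset.mem_Icc] at hp
          have hp1 : (1 : ℝ) < p := by exact_mod_cast (by omega : 1 < p)
          have : (p : ℝ) ^ (-s) < 1 := Real.rpow_lt_one_of_one_lt_of_neg hp1 (by linarith)
          exact inv_nonneg.2 (by linarith)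
      _ = Real.exp (∑ p ∈ P with p.Prime, 4 * (e3 * (1 / Real.sqrt (p : ℝ)))) :=
          (Real.exp_sum _ _).symm
      _ ≤ Real.exp (b * Y / 2) := by
          refine Real.exp_le_exp.2 ?_
          have h1 : ∑ p ∈ P with p.Prime, 4 * (e3 * (1 / Real.sqrt (p : ℝ)))
              = 4 * e3 * ∑ p ∈ P with p.Prime, 1 / Real.sqrt (p : ℝ) := by
            rw [Finset.mul_sum]
            exact Finset.sum_congr rfl fun _ _ => by ring
          rw [h1]
          have h2 : ∑ p ∈ P with p.Prime, 1 / Real.sqrt (p : ℝ) ≤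
              ∑ p ∈ (Icc 1 ⌊z⌋₊).filter Nat.Prime, 1 / Real.sqrt (p : ℝ) := by
            refine Finset.sum_le_sum_of_subset_of_nonneg ?_ fun _ _ _ => by positivity
            intro p hp
            rw [Finset.mem_filter, hP, Finset.mem_Icc] at hp
            rw [Finset.mem_filter, Finset.mem_Icc]
            exact ⟨⟨by omega, hp.1.2⟩, hp.2⟩
          have h3 := hz0 z hz
          have h4 : Real.sqrt z = Real.sqrt K0 * Y := by
            rw [hzdef, Real.sqrt_mul hK0.le, Real.sqrt_sq hY0.le]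
          rw [h4] at h3
          have hsK := Real.sqrt_pos.2 hK0
          have h5 : b / (8 * e3 * Real.sqrt K0) * (Real.sqrt K0 * Y) = b * Y / (8 * e3) := by
            field_simp
          rw [h5] at h3
          calc 4 * e3 * ∑ p ∈ P with p.Prime, 1 / Real.sqrt (p : ℝ)
              ≤ 4 * e3 * (b * Y / (8 * e3)) :=
                mul_le_mul_of_nonneg_left (h2.trans h3) (by positivity)
            _ = b * Y / 2 := by field_simp; ring
  calc (T.card : ℝ) ≤ (N : ℝ) ^ s * ∑ k ∈ T, (k : ℝ) ^ (-s) := hcard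
    _ ≤ (Real.sqrt N * Real.exp (-(b * Y))) * Real.exp (b * Y / 2) := by
        refine mul_le_mul hNs (hE.trans hprod) ?_ (by positivity)
        exact Finset.sum_nonneg fun _ _ => Real.rpow_nonneg (Nat.cast_nonneg _) _
    _ = Real.sqrt N * Real.exp (-(b * Y / 2)) := by
        rw [mul_assoc, ← Real.exp_add]
        congr 2
        ring

end Pool.Agent.Q298.PN.SM
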