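import Pool.Agent.Q240.PN.Stm

/-! Job WIN of project PN (author helper240): a window of consecutive primes. -/

set_option autoImplicit false

namespace Pool.Agent.Q298.PN.WIN

open Finset Filter Pool.Agent.Q240.PN

theorem log_sub_ge (a b : ℝ) (ha : 0 < a) (hb : 0 < b) : (a - b) / a ≤ Real.log a - Real.log b := by
  rw [← Real.log_div ha.ne' hb.ne']
  have h := Real.one_sub_inv_le_log_of_pos (div_pos ha hb)
  rw [inv_div] at h
  have : (a - b) / a = 1 - b / a := by field_simp
  linarith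

theorem log_sub_le (a b : ℝ) (ha : 0 < a) (hb : 0 < b) : Real.log a - Real.log b ≤ (a - b) / b := by
  rw [← Real.log_div ha.ne' hb.ne']
  have h := Real.log_le_sub_one_of_pos (div_pos ha hb)
  have : (a - b) / b = a / b - 1 := by field_simp
  linarith

/-- `f N i = ∑_{l < N} log (1 + 1/q_{i+l})` -/
noncomputable def f (q : ℕ → ℕ) (N i : ℕ) : ℝ := ∑ l ∈ range N, Real.log (1 + 1 / (q (i + l) : ℝ))

theorem f_succ (q : ℕ → ℕ) (N i : ℕ) :
    f q (N + 1) i = f q N i + Real.log (1 + 1 / (q (i + N) : ℝ)) := by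
  rw [f, Finset.sum_range_succ, f]

theorem f_shift (q : ℕ → ℕ) (N i : ℕ) :
    f q N i - f q N (i + 1) = Real.log (1 + 1 / (q i : ℝ)) - Real.log (1 + 1 / (q (i + N) : ℝ)) := by
  have h1 := f_succ q N i
  have h2 : f q (N + 1) i = f q N (i + 1) + Real.log (1 + 1 / (q i : ℝ)) := by
    rw [f, Finset.sum_range_succ', f]
    congr 1
    refine Finset.sum_congr rfl fun l _ => ?_
    rw [show i + (l + 1) = i + 1 + l by ring]
  linarith

theorem core (X Y : ℝ) (m : ℕ) (q : ℕ → ℕ) (hq : StrictMono q)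
    (hX : ∀ i ≤ m, X / 2 < (q i : ℝ) ∧ (q i : ℝ) ≤ X) (hspan : (q m : ℝ) - q 0 ≤ X / 102)
    (hm : 6 * Y ≤ m) (hXY : X ≤ Y ^ 2) (hY : 5 ≤ Y) (hX5 : 5 ≤ X) (hXY2 : Y ≤ X) :
    ∃ i N : ℕ, i + N ≤ m ∧ f q N i < Real.log (1 + 1 / Y) ∧
      Real.log (1 + 1 / Y) + Real.log (1 + 1 / (4 * (q (i + N) : ℝ))) ≤ f q (N + 1) i := by
  set lam := Real.log (1 + 1 / Y) with hlam
  have hY0 : 0 < Y := by linarith
  have hX0 : 0 < X := by linarith
  have hlam1 : 1 / (Y + 1) ≤ lam := by
    have h := Real.one_sub_inv_le_log_of_pos (show (0 : ℝ) < 1 + 1 / Y by positivity)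
    have : 1 - (1 + 1 / Y)⁻¹ = 1 / (Y + 1) := by field_simp; ring
    linarith
  have hlam2 : lam ≤ 1 / Y := by
    have h := Real.log_le_sub_one_of_pos (show (0 : ℝ) < 1 + 1 / Y by positivity)
    linarith
  have hlam0 : 0 < lam := lt_of_lt_of_le (by positivity) hlam1
  have ht1 : ∀ i ≤ m, 1 / (X + 1) ≤ Real.log (1 + 1 / (q i : ℝ)) := by
    intro i hi
    obtain ⟨h1, h2⟩ := hX i hi
    have hq0 : (0 : ℝ) < q i := by linarith
    have h := Real.one_sub_inv_le_log_of_pos (show (0 : ℝ) < 1 + 1 / (q i : ℝ) by positivity)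
    have h3 : 1 - (1 + 1 / (q i : ℝ))⁻¹ = 1 / (q i + 1) := by field_simp; ring
    have h4 : 1 / (X + 1) ≤ 1 / ((q i : ℝ) + 1) :=
      one_div_le_one_div_of_le (by linarith) (by linarith)
    linarith
  have ht2 : ∀ i ≤ m, Real.log (1 + 1 / (q i : ℝ)) ≤ 2 / X := by
    intro i hi
    obtain ⟨h1, h2⟩ := hX i hi
    have hq0 : (0 : ℝ) < q i := by linarith
    have h := Real.log_le_sub_one_of_pos (show (0 : ℝ) < 1 + 1 / (q i : ℝ) by positivity)
    have h3 : 1 / (q i : ℝ) ≤ 1 / (X / 2) := one_div_le_one_div_of_le (by linarith) h1.le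
    have h4 : 1 / (X / 2) = 2 / X := by field_simp
    linarith
  -- N
  set N0 : ℕ := ⌈Y⌉₊ + 2 with hN0
  have hN0m : (N0 : ℝ) ≤ Y + 3 := by
    rw [hN0]; push_cast
    have := Nat.ceil_lt_add_one hY0.le
    linarith
  have hmr : Y + 3 + (3 * Y + 1) ≤ m := by linarith
  have hfN0 : lam ≤ f q N0 0 := by
    have h1 : (N0 : ℝ) * (1 / (X + 1)) ≤ f q N0 0 := by
      rw [f, ← nsmul_eq_mul]
      have := Finset.card_nsmul_le_sum (range N0) (fun l => Real.log (1 + 1 / (q (0 + l) : ℝ)))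
        (1 / (X + 1)) (by
          intro l hl
          rw [Finset.mem_range] at hl
          refine ht1 _ ?_
          have : (l : ℝ) < N0 := by exact_mod_cast hl
          have h5 : ((0 + l : ℕ) : ℝ) ≤ m := by push_cast; linarith
          exact_mod_cast h5)
      rwa [Finset.card_range] at this
    have h2 : Y + 2 ≤ N0 := by
      rw [hN0]; push_cast
      have := Nat.le_ceil Y
      linarith
    have h3 : 1 / Y ≤ (N0 : ℝ) * (1 / (X + 1)) := by
      rw [mul_one_div, div_le_div_iff₀ hY0 (by linarith)]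
      nlinarith
    linarith
  have hex : ∃ n, lam ≤ f q n 0 := ⟨N0, hfN0⟩
  classical
  obtain ⟨N, hN1, hN2⟩ : ∃ N, lam ≤ f q N 0 ∧ ∀ n < N, f q n 0 < lam :=
    ⟨Nat.find hex, Nat.find_spec hex, fun n hn => not_le.1 (Nat.find_min hex hn)⟩
  have hNN0 : N ≤ N0 := by
    by_contra hcon
    push Not at hcon
    exact absurd (hN2 _ hcon) (not_lt.2 hfN0)
  have hNpos : 0 < N := by
    rcases Nat.eq_zero_or_pos N with h | h
    · rw [h] at hN1
      simp [f] at hN1
      linarith
    · exact h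
  have hNr : (N : ℝ) ≤ Y + 3 := le_trans (by exact_mod_cast hNN0) hN0m
  have hNlow : X / (2 * (Y + 1)) ≤ N := by
    have h1 : f q N 0 ≤ (N : ℝ) * (2 / X) := by
      rw [f, ← nsmul_eq_mul]
      have := Finset.sum_le_card_nsmul (range N) (fun l => Real.log (1 + 1 / (q (0 + l) : ℝ)))
        (2 / X) (by
          intro l hl
          rw [Finset.mem_range] at hl
          refine ht2 _ ?_
          have : (l : ℝ) < N := by exact_mod_cast hl
          have h5 : ((0 + l : ℕ) : ℝ) ≤ m := by push_cast; linarith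
          exact_mod_cast h5)
      rwa [Finset.card_range] at this
    have h2 : 1 / (Y + 1) ≤ (N : ℝ) * (2 / X) := by linarith
    rw [mul_div_assoc', div_le_div_iff₀ (by linarith) hX0] at h2
    rw [div_le_iff₀ (by positivity)]
    linarith
  -- first case
  obtain ⟨n, rfl⟩ : ∃ n, N = n + 1 := ⟨N - 1, by omega⟩
  by_cases hcase : lam + Real.log (1 + 1 / (4 * (q (0 + n) : ℝ))) ≤ f q (n + 1) 0
  · refine ⟨0, n, ?_, hN2 n (by omega), hcase⟩
    have h5 : ((0 + n : ℕ) : ℝ) ≤ m := by push_cast at hNr ⊢; linarith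
    exact_mod_cast h5
  push Not at hcase
  set N := n + 1 with hNdef
  have hnm : n ≤ m := by
    have h5 : (n : ℝ) ≤ m := by rw [hNdef] at hNr; push_cast at hNr ⊢; linarith
    exact_mod_cast h5
  have ho : f q N 0 < lam + 1 / (2 * X) := by
    have h1 : Real.log (1 + 1 / (4 * (q (0 + n) : ℝ))) ≤ 1 / (2 * X) := by
      obtain ⟨h1, h2⟩ := hX n hnm
      rw [zero_add]
      have hq0 : (0 : ℝ) < q n := by linarith
      have h := Real.log_le_sub_one_of_pos (show (0 : ℝ) < 1 + 1 / (4 * (q n : ℝ)) by positivity)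
      have h3 : 1 / (4 * (q n : ℝ)) ≤ 1 / (2 * X) :=
        one_div_le_one_div_of_le (by linarith) (by linarith)
      linarith
    linarith
  set K : ℕ := ⌈3 * Y⌉₊ with hK
  have hK1 : (K : ℝ) ≤ 3 * Y + 1 := (Nat.ceil_lt_add_one (by linarith)).le
  have hK2 : 3 * Y ≤ K := Nat.le_ceil _
  have hKN : K + N ≤ m := by
    have h5 : ((K + N : ℕ) : ℝ) ≤ m := by push_cast; linarith
    exact_mod_cast h5
  -- gap bounds
  have hgap : ∀ i j : ℕ, (j : ℝ) ≤ (q (i + j) : ℝ) - q i := by
    intro i j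
    induction j with
    | zero => simp
    | succ k ih =>
      have h1 : q (i + k) < q (i + (k + 1)) := hq (by omega)
      have h2 : ((q (i + k) : ℝ)) + 1 ≤ q (i + (k + 1)) := by exact_mod_cast h1
      push_cast
      linarith
  have hdl : ∀ i : ℕ, i + N ≤ m → (N : ℝ) / (X * (X + 1)) ≤ f q N i - f q N (i + 1) := by
    intro i hi
    rw [f_shift]
    obtain ⟨h1, h2⟩ := hX i (by omega)
    obtain ⟨h3, h4⟩ := hX (i + N) hi
    have hq0 : (0 : ℝ) < q i := by linarith
    have hq1 : (0 : ℝ) < q (i + N) := by linarith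
    refine le_trans ?_ (log_sub_ge _ _ (by positivity) (by positivity))
    have e : (1 + 1 / (q i : ℝ) - (1 + 1 / (q (i + N) : ℝ))) / (1 + 1 / (q i : ℝ)) =
        ((q (i + N) : ℝ) - q i) / ((q (i + N)) * (q i + 1)) := by
      field_simp
      ring
    rw [e]
    refine div_le_div₀ ?_ (hgap i N) (by positivity) ?_
    · have := hgap i N
      linarith [Nat.cast_nonneg (α := ℝ) N]
    · refine mul_le_mul h4 (by linarith) (by positivity) hX0.le
  have hdu : ∀ i : ℕ, i + N ≤ m → f q N i - f q N (i + 1) ≤ 1 / (25 * X) := by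
    intro i hi
    rw [f_shift]
    obtain ⟨h1, h2⟩ := hX i (by omega)
    obtain ⟨h3, h4⟩ := hX (i + N) hi
    have hq0 : (0 : ℝ) < q i := by linarith
    have hq1 : (0 : ℝ) < q (i + N) := by linarith
    refine (log_sub_le _ _ (by positivity) (by positivity)).trans ?_
    have e : (1 + 1 / (q i : ℝ) - (1 + 1 / (q (i + N) : ℝ))) / (1 + 1 / (q (i + N) : ℝ)) =
        ((q (i + N) : ℝ) - q i) / ((q i) * (q (i + N) + 1)) := by
      field_simp
      ring
    rw [e]
    have h5 : (q (i + N) : ℝ) - q i ≤ X / 102 := by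
      have h6 : (q (i + N) : ℝ) ≤ q m := by exact_mod_cast hq.monotone hi
      have h7 : (q 0 : ℝ) ≤ q i := by exact_mod_cast hq.monotone (Nat.zero_le i)
      linarith
    have h8 : X / 2 * (X / 2) ≤ (q i : ℝ) * (q (i + N) + 1) :=
      mul_le_mul h1.le (by linarith) (by positivity) hq0.le
    calc ((q (i + N) : ℝ) - q i) / ((q i) * (q (i + N) + 1)) ≤ (X / 102) / (X / 2 * (X / 2)) :=
          div_le_div₀ (by positivity) h5 (by positivity) h8
      _ ≤ 1 / (25 * X) := by
          rw [div_le_div_iff₀ (by positivity) (by positivity)]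
          nlinarith [sq_nonneg X, mul_pos hX0 hX0]
  have htel : (K : ℝ) * ((N : ℝ) / (X * (X + 1))) ≤ f q N 0 - f q N K := by
    rw [← Finset.sum_range_sub' (fun i => f q N i) K, ← nsmul_eq_mul]
    have := Finset.card_nsmul_le_sum (range K) (fun i => f q N i - f q N (i + 1))
      ((N : ℝ) / (X * (X + 1))) (by
        intro i hi
        rw [Finset.mem_range] at hi
        exact hdl i (by omega))
    rwa [Finset.card_range] at this
  have hKbig : 1 / (2 * X) ≤ (K : ℝ) * ((N : ℝ) / (X * (X + 1))) := by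
    have h1 : 3 * Y * (X / (2 * (Y + 1)) / (X * (X + 1))) ≤ (K : ℝ) * ((N : ℝ) / (X * (X + 1))) := by
      refine mul_le_mul hK2 ?_ (by positivity) (by positivity)
      exact div_le_div_of_nonneg_right hNlow (by positivity)
    refine le_trans ?_ h1
    have e : 3 * Y * (X / (2 * (Y + 1)) / (X * (X + 1))) = 3 * Y / (2 * (Y + 1) * (X + 1)) := by
      field_simp
    rw [e, div_le_div_iff₀ (by positivity) (by positivity)]
    nlinarith
  have hfK : f q N K < lam := by linarith
  -- first index below lam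
  have hex2 : ∃ i, f q N i < lam := ⟨K, hfK⟩
  obtain ⟨i, hi1, hi2⟩ : ∃ i, f q N i < lam ∧ ∀ j < i, lam ≤ f q N j :=
    ⟨Nat.find hex2, Nat.find_spec hex2, fun n hn => not_lt.1 (Nat.find_min hex2 hn)⟩
  have hiK : i ≤ K := by
    by_contra hcon
    push Not at hcon
    exact absurd (hi2 _ hcon) (not_le.2 hfK)
  have hi0 : 0 < i := by
    rcases Nat.eq_zero_or_pos i with h | h
    · rw [h] at hi1
      exact absurd hN1 (not_le.2 hi1)
    · exact h
  obtain ⟨j, rfl⟩ : ∃ j, i = j + 1 := ⟨i - 1, by omega⟩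
  have h1 := hi2 j (by omega)
  have h2 := hdu j (by omega)
  refine ⟨j + 1, N, by omega, hi1, ?_⟩
  rw [f_succ]
  obtain ⟨h3, h4⟩ := hX (j + 1 + N) (by omega)
  set Q : ℝ := (q (j + 1 + N) : ℝ) with hQ
  have hQ0 : 0 < Q := by linarith
  have h5 := log_sub_ge (1 + 1 / Q) (1 + 1 / (4 * Q)) (by positivity) (by positivity)
  have h6 : (1 + 1 / Q - (1 + 1 / (4 * Q))) / (1 + 1 / Q) = 3 / (4 * (Q + 1)) := by
    field_simp
    ring
  have h7 : 1 / (25 * X) ≤ 3 / (4 * (Q + 1)) := by
    rw [div_le_div_iff₀ (by positivity) (by positivity)]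
    nlinarith
  linarith

theorem card_primes (a b : ℕ) (hab : a ≤ b) :
    Nat.primeCounting a + ((Ioc a b).filter Nat.Prime).card = Nat.primeCounting b := by
  have e : ∀ n, Nat.primeCounting n = ((range (n + 1)).filter Nat.Prime).card := fun n => by
    rw [Nat.primeCounting, Nat.primeCounting', Nat.count_eq_card_filter_range]
  rw [e a, e b]
  rw [← Finset.card_union_of_disjoint]
  · congr 1
    ext p
    simp only [Finset.mem_union, Finset.mem_filter, Finset.mem_range, Finset.mem_Ioc]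
    constructor
    · rintro (⟨h1, h2⟩ | ⟨⟨h1, h2⟩, h3⟩)
      · exact ⟨by omega, h2⟩
      · exact ⟨by omega, h3⟩
    · rintro ⟨h1, h2⟩
      by_cases h : p < a + 1
      · exact Or.inl ⟨h, h2⟩
      · exact Or.inr ⟨⟨by omega, by omega⟩, h2⟩
  · rw [Finset.disjoint_left]
    intro p hp hp'
    simp only [Finset.mem_filter, Finset.mem_range, Finset.mem_Ioc] at hp hp'
    omega

/-- the product over a window of `q` is `exp (f q N i)` -/
theorem hA_window (q : ℕ → ℕ) (hq : StrictMono q) (N i : ℕ) :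
    hA ((range N).image (fun l => q (i + l))) = Real.exp (f q N i) := by
  rw [hA, Finset.prod_image, f, Real.exp_sum]
  · refine Finset.prod_congr rfl fun l _ => ?_
    rw [Real.exp_log (by positivity)]
  · intro a _ b _ hab
    have := hq.injective hab
    omega

theorem win (hCHL : S_CHL) : S_WIN := by
  intro c1 hc1 hc1'
  obtain ⟨c, x0, hc, hx0, hchl⟩ := hCHL
  have hev : ∀ᶠ Y : ℝ in atTop, 5 ≤ Y ∧ max x0 5 ≤ c1 * Y ^ 2 ∧ Y ≤ c1 * Y ^ 2 ∧
      Real.log Y ≤ c * c1 / 1000 * Y := by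
    have h1 : Tendsto (fun Y : ℝ => c1 * Y ^ 2) atTop atTop :=
      (tendsto_pow_atTop (two_ne_zero)).const_mul_atTop hc1
    have h2 : ∀ᶠ Y : ℝ in atTop, Real.log Y ≤ c * c1 / 1000 * Y := by
      have := Real.isLittleO_log_id_atTop.bound (show 0 < c * c1 / 1000 by positivity)
      filter_upwards [this, eventually_ge_atTop (1 : ℝ)] with Y hY hY1
      simp only [id] at hY
      rw [Real.norm_of_nonneg (Real.log_nonneg hY1), Real.norm_of_nonneg (by linarith)] at hY
      exact hY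
    filter_upwards [eventually_ge_atTop (5 : ℝ), h1.eventually (eventually_ge_atTop (max x0 5)),
      eventually_ge_atTop (1 / c1), h2] with Y a1 a2 a3 a4
    refine ⟨a1, a2, ?_, a4⟩
    rw [div_le_iff₀ hc1] at a3
    nlinarith
  obtain ⟨Y1, hY1⟩ := eventually_atTop.1 hev
  refine ⟨max Y1 1, le_max_right _ _, fun Y hY => ?_⟩
  obtain ⟨hY5, hXbig, hYX, hlog⟩ := hY1 Y ((le_max_left _ _).trans hY)
  set X : ℝ := c1 * Y ^ 2 with hXdef
  have hY0 : 0 < Y := by linarith
  have hx0X : x0 ≤ X := (le_max_left _ _).trans hXbig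
  have hX5 : 5 ≤ X := (le_max_right _ _).trans hXbig
  have hX0 : 0 < X := by linarith
  have hXY : X ≤ Y ^ 2 := by rw [hXdef]; nlinarith [sq_nonneg Y]
  have hr := hchl X hx0X
  set m : ℕ := ⌈6 * Y⌉₊ with hm
  have hm1 : 6 * Y ≤ m := Nat.le_ceil _
  have hm2 : (m : ℝ) ≤ 6 * Y + 1 := (Nat.ceil_lt_add_one (by linarith)).le
  -- number of primes
  have hcnt : 51 * m + 1 ≤ ((Ioc ⌊X / 2⌋₊ ⌊X⌋₊).filter Nat.Prime).card := by
    have hlX0 : 0 < Real.log X := Real.log_pos (by linarith)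
    have hlX : Real.log X ≤ 2 * Real.log Y := by
      have : Real.log X ≤ Real.log (Y ^ 2) := Real.log_le_log hX0 hXY
      rw [Real.log_pow] at this
      push_cast at this
      exact this
    have h1 : 51 * (6 * Y + 1) + 1 ≤ c * X / Real.log X := by
      rw [le_div_iff₀ hlX0]
      have h2 : 51 * (6 * Y + 1) + 1 ≤ 400 * Y := by linarith
      calc (51 * (6 * Y + 1) + 1) * Real.log X ≤ 400 * Y * (2 * (c * c1 / 1000 * Y)) :=
            mul_le_mul h2 (by linarith) hlX0.le (by positivity)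
        _ ≤ c * X := by rw [hXdef]; nlinarith [mul_pos (mul_pos hc hc1) (mul_pos hY0 hY0)]
    have h3 : ((51 * m + 1 : ℕ) : ℝ) ≤ (((Ioc ⌊X / 2⌋₊ ⌊X⌋₊).filter Nat.Prime).card : ℝ) := by
      push_cast
      linarith
    exact_mod_cast h3
  have hfl : ⌊X / 2⌋₊ ≤ ⌊X⌋₊ := Nat.floor_mono (by linarith)
  have hpc := card_primes _ _ hfl
  set a : ℕ := Nat.primeCounting ⌊X / 2⌋₊ with ha
  set Q : ℕ → ℕ := fun i => Nat.nth Nat.Prime (a + i) with hQ
  have hinf : (Set.ofPred Nat.Prime).Infinite := Nat.infinite_setOfPred_prime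
  have hQm : StrictMono Q := fun i j hij => Nat.nth_strictMono hinf (by omega)
  have hQp : ∀ i, (Q i).Prime := fun i => Nat.nth_mem_of_infinite hinf _
  have hQb : ∀ i ≤ 51 * m, X / 2 < (Q i : ℝ) ∧ (Q i : ℝ) ≤ X := by
    intro i hi
    constructor
    · have h1 : ⌊X / 2⌋₊ < Q i := by
        by_contra hcon
        push Not at hcon
        have h2 : Nat.nth Nat.Prime (a + i) < ⌊X / 2⌋₊ + 1 := Nat.lt_succ_of_le hcon
        rw [← Nat.lt_nth_iff_count_lt hinf] at h2
        have h3 : Nat.count Nat.Prime (⌊X / 2⌋₊ + 1) = a := rfl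
        omega
      exact (Nat.floor_lt' (by have := (hQp i).pos; omega)).1 h1
    · have h1 : Nat.nth Nat.Prime (a + i) < ⌊X⌋₊ + 1 := by
        rw [← Nat.lt_nth_iff_count_lt hinf]
        have h3 : Nat.count Nat.Prime (⌊X⌋₊ + 1) = Nat.primeCounting ⌊X⌋₊ := rfl
        omega
      have h2 : Q i ≤ ⌊X⌋₊ := Nat.lt_succ_iff.1 h1
      exact (Nat.le_floor_iff' (by have := (hQp i).pos; omega)).1 h2
  -- a short block
  obtain ⟨j, hj, hspan⟩ : ∃ j ∈ range 51, (Q ((j + 1) * m) : ℝ) - Q (j * m) ≤ X / 102 := by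
    by_contra hcon
    push Not at hcon
    have h1 : ∑ j ∈ range 51, ((Q ((j + 1) * m) : ℝ) - Q (j * m)) = (Q (51 * m) : ℝ) - Q (0 * m) :=
      Finset.sum_range_sub (fun j => (Q (j * m) : ℝ)) 51
    have h2 : ∑ j ∈ range 51, X / 102 < ∑ j ∈ range 51, ((Q ((j + 1) * m) : ℝ) - Q (j * m)) :=
      Finset.sum_lt_sum_of_nonempty ⟨0, by simp⟩ hcon
    rw [h1, Finset.sum_const, Finset.card_range, nsmul_eq_mul] at h2
    obtain ⟨-, h3⟩ := hQb (51 * m) le_rfl
    obtain ⟨h4, -⟩ := hQb (0 * m) (by omega)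
    push_cast at h2
    linarith
  rw [Finset.mem_range] at hj
  set q : ℕ → ℕ := fun i => Q (j * m + i) with hq
  have hqm : StrictMono q := fun x y hxy => hQm (by omega)
  have hjm : j * m + m ≤ 51 * m := by nlinarith
  obtain ⟨i, N, hiN, hf1, hf2⟩ := core X Y m q hqm
    (by
      intro i hi
      exact hQb _ (by omega))
    (by
      have e1 : q m = Q ((j + 1) * m) := by
        simp only [hq]; congr 1; ring
      have e2 : q 0 = Q (j * m) := by simp only [hq, add_zero]
      rw [e1, e2]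
      exact hspan) hm1 hXY hY5 hX5 hYX
  refine ⟨(range (N + 1)).image (fun l => q (i + l)), q (i + N), ?_, ?_, ?_, ?_⟩
  · exact Finset.mem_image.2 ⟨N, by simp, rfl⟩
  · intro p hp
    obtain ⟨l, hl, rfl⟩ := Finset.mem_image.1 hp
    rw [Finset.mem_range] at hl
    obtain ⟨h1, h2⟩ := hQb (j * m + (i + l)) (by omega)
    refine ⟨hQp _, h1, h2, hqm.monotone (by omega)⟩
  · have e : ((range (N + 1)).image (fun l => q (i + l))).erase (q (i + N)) =
        (range N).image (fun l => q (i + l)) := by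
      rw [Finset.range_add_one, Finset.image_insert, Finset.erase_insert]
      intro hmem
      obtain ⟨l, hl, hl2⟩ := Finset.mem_image.1 hmem
      rw [Finset.mem_range] at hl
      have := hqm.injective hl2
      omega
    rw [e, hA_window q hqm]
    have h := Real.exp_lt_exp.2 hf1
    rwa [Real.exp_log (by positivity)] at h
  · rw [hA_window q hqm]
    have h := Real.exp_le_exp.2 hf2
    rwa [Real.exp_add, Real.exp_log (by positivity), Real.exp_log (by positivity)] at h

end Pool.Agent.Q298.PN.WIN
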